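import Mathlib

/-!
# ni: NO IDENTIFICATIONS and TRANSFER (pure lemmas, MP_70a088_an)

An abstract system of iterates: `g (i + j) z = g i (g j z)`, `Hn i` = the open set on which `g i` is holomorphic, `z ∈ Hn (i + j) ↔ z ∈ Hn j ∧ g j z ∈ Hn i`.
For `RT.Dyn`: `g = it Y`, `Hn i = {z | Hon Y i z}` (row VIT).
-/

set_option autoImplicit false

open Metric Set Filter Topology

noncomputable section

namespace NI

/-- a system of iterates. -/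
structure Itr (g : ℕ → ℂ → ℂ) (Hn : ℕ → Set ℂ) : Prop where
  add : ∀ i j z, g (i + j) z = g i (g j z)
  hon : ∀ i j z, z ∈ Hn (i + j) ↔ z ∈ Hn j ∧ g j z ∈ Hn i
  opn : ∀ i, IsOpen (Hn i)
  dif : ∀ i, DifferentiableOn ℂ (g i) (Hn i)

theorem Itr.mono {g : ℕ → ℂ → ℂ} {Hn : ℕ → Set ℂ} (h : Itr g Hn) {i j : ℕ} (hij : i ≤ j) : Hn j ⊆ Hn i := by
  intro z hz
  have e : j = (j - i) + i := by omega
  rw [e] at hz
  exact ((h.hon _ _ _).1 hz).1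

theorem Itr.comm {g : ℕ → ℂ → ℂ} {Hn : ℕ → Set ℂ} (h : Itr g Hn) (i j : ℕ) (z : ℂ) : g i (g j z) = g j (g i z) := by
  rw [← h.add, ← h.add, add_comm]

/-- COMMUTATION: if `f^u (σ z) = f^(u+m) z` at `z` and at `f^N z` then `σ (f^N z)` and `f^N (σ z)` have the same image under `f^u`. -/
theorem comm_img {g : ℕ → ℂ → ℂ} {Hn : ℕ → Set ℂ} (h : Itr g Hn) {D : Set ℂ} {σ : ℂ → ℂ} {N u m : ℕ}
    (hσ : ∀ z ∈ D, g u (σ z) = g (u + m) z) {z : ℂ} (hz : z ∈ D) (hFz : g N z ∈ D) :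
    g u (σ (g N z)) = g u (g N (σ z)) := by
  rw [hσ _ hFz, h.comm (u + m) N z, ← hσ z hz, h.comm u N]

/-- COMMUTATION: `σ` commutes with the return `f^N` if `f^u` is injective on a set which contains `σ (f^N z)` and `f^N (σ z)`. -/
theorem comm_of_inj {g : ℕ → ℂ → ℂ} {Hn : ℕ → Set ℂ} (h : Itr g Hn) {D E : Set ℂ} {σ : ℂ → ℂ} {N u m : ℕ}
    (hσ : ∀ z ∈ D, g u (σ z) = g (u + m) z) (hE : InjOn (g u) E) {z : ℂ} (hz : z ∈ D) (hFz : g N z ∈ D)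
    (h1 : σ (g N z) ∈ E) (h2 : g N (σ z) ∈ E) : σ (g N z) = g N (σ z) :=
  hE h1 h2 (comm_img h hσ hz hFz)

/-- open mapping for a nonconstant holomorphic function on an open preconnected set. -/
theorem image_mem_nhds {f : ℂ → ℂ} {D : Set ℂ} (hD : IsOpen D) (hDc : IsPreconnected D) (hf : DifferentiableOn ℂ f D)
    (hi : ∃ x ∈ D, ∃ y ∈ D, f x ≠ f y) {z : ℂ} (hz : z ∈ D) {O : Set ℂ} (hO : O ∈ 𝓝 z) : f '' O ∈ 𝓝 (f z) := by
  have han : AnalyticAt ℂ f z := hf.analyticAt (hD.mem_nhds hz)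
  rcases han.eventually_constant_or_nhds_le_map_nhds with hc | hm
  · exfalso
    obtain ⟨x, hx, y, hy, hxy⟩ := hi
    have h1 : EqOn f (fun _ => f z) D :=
      (hf.analyticOnNhd hD).eqOn_of_preconnected_of_eventuallyEq analyticOnNhd_const hDc hz hc
    exact hxy ((h1 hx).trans (h1 hy).symm)
  · exact hm (image_mem_map hO)

/-- ONE STEP DOWN. -/
theorem step_down {g : ℕ → ℂ → ℂ} {Hn : ℕ → Set ℂ} (h : Itr g Hn) {D : Set ℂ} (hDo : IsOpen D) (hDc : IsPreconnected D)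
    {σ : ℂ → ℂ} (hσd : DifferentiableOn ℂ σ D) {N p q : ℕ} (hDN : D ⊆ Hn N) (hinj : ∃ x ∈ D, ∃ y ∈ D, g N x ≠ g N y) (hne : ∃ z ∈ D, g N z ∈ D)
    (hcom : ∀ z ∈ D, g N z ∈ D → σ (g N z) = g N (σ z)) (hp : MapsTo σ D (Hn p)) (hq : D ⊆ Hn q) (hNp : N ≤ p) (hNq : N ≤ q)
    (hσ : ∀ z ∈ D, g p (σ z) = g q z) : ∀ z ∈ D, g (p - N) (σ z) = g (q - N) z := by
  obtain ⟨z₀, hz₀, hFz₀⟩ := hne
  have hdF : DifferentiableOn ℂ (g N) D := (h.dif N).mono hDN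
  -- the open set of the points with `z ∈ D`, `F z ∈ D`
  have hO : D ∩ g N ⁻¹' D ∈ 𝓝 z₀ :=
    inter_mem (hDo.mem_nhds hz₀) ((hdF.continuousOn.continuousAt (hDo.mem_nhds hz₀)).preimage_mem_nhds (hDo.mem_nhds hFz₀))
  have himg : g N '' (D ∩ g N ⁻¹' D) ∈ 𝓝 (g N z₀) := image_mem_nhds hDo hDc hdF hinj hz₀ hO
  have hp' : MapsTo σ D (Hn (p - N)) := fun z hz => h.mono (by omega) (hp hz)
  have hq' : D ⊆ Hn (q - N) := fun z hz => h.mono (by omega) (hq hz)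
  have h1 : DifferentiableOn ℂ (fun z => g (p - N) (σ z)) D := (h.dif _).comp hσd hp'
  have h2 : DifferentiableOn ℂ (g (q - N)) D := (h.dif _).mono hq'
  have h3 : (fun z => g (p - N) (σ z)) =ᶠ[𝓝 (g N z₀)] g (q - N) := by
    filter_upwards [himg] with y hy
    obtain ⟨z, ⟨hz, hFz⟩, rfl⟩ := hy
    show g (p - N) (σ (g N z)) = g (q - N) (g N z)
    rw [hcom z hz hFz, ← h.add, ← h.add, Nat.sub_add_cancel hNp, Nat.sub_add_cancel hNq, hσ z hz]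
  exact (h1.analyticOnNhd hDo).eqOn_of_preconnected_of_eventuallyEq (h2.analyticOnNhd hDo) hDc hFz₀ h3

/-- TRANSFER: a relation `f^u σ = f^(u+m)` on `D`, `σ` commuting with `f^N`, goes down to `f^N σ = f^(N+m)` on `D`. -/
theorem transfer {g : ℕ → ℂ → ℂ} {Hn : ℕ → Set ℂ} (h : Itr g Hn) {D : Set ℂ} (hDo : IsOpen D) (hDc : IsPreconnected D)
    {σ : ℂ → ℂ} (hσd : DifferentiableOn ℂ σ D) {N : ℕ} (hN : 1 ≤ N) (hDN : D ⊆ Hn N) (hinj : ∃ x ∈ D, ∃ y ∈ D, g N x ≠ g N y) (hne : ∃ z ∈ D, g N z ∈ D)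
    (hcom : ∀ z ∈ D, g N z ∈ D → σ (g N z) = g N (σ z)) (u m : ℕ) (hp : MapsTo σ D (Hn u)) (hq : D ⊆ Hn (u + m))
    (hσ : ∀ z ∈ D, g u (σ z) = g (u + m) z) : ∀ z ∈ D, g N (σ z) = g (N + m) z := by
  induction u using Nat.strong_induction_on with
  | _ u ih =>
    rcases lt_or_ge u N with hu | hu
    · intro z hz
      have e1 : N = (N - u) + u := by omega
      have e2 : N + m = (N - u) + (u + m) := by omega
      rw [e2]
      conv_lhs => rw [e1]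
      rw [h.add, h.add, hσ z hz]
    · have hs := step_down h hDo hDc hσd hDN hinj hne hcom hp hq hu (by omega) hσ
      have e : u + m - N = (u - N) + m := by omega
      rw [e] at hs
      exact ih (u - N) (by omega) (fun z hz => h.mono (by omega) (hp hz)) (fun z hz => h.mono (by omega) (hq hz)) hs

/-- NO IDENTIFICATIONS, first form: if `f^w σ = f^w` on `D` and `σ` commutes with `F = f^N` then `F σ = F` on `D`. -/
theorem no_ident_img {g : ℕ → ℂ → ℂ} {Hn : ℕ → Set ℂ} (h : Itr g Hn) {D : Set ℂ} (hDo : IsOpen D) (hDc : IsPreconnected D)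
    {σ : ℂ → ℂ} (hσd : DifferentiableOn ℂ σ D) {N : ℕ} (hN : 1 ≤ N) (hDN : D ⊆ Hn N) (hinj : ∃ x ∈ D, ∃ y ∈ D, g N x ≠ g N y) (hne : ∃ z ∈ D, g N z ∈ D)
    (hcom : ∀ z ∈ D, g N z ∈ D → σ (g N z) = g N (σ z)) (w : ℕ) (hp : MapsTo σ D (Hn w)) (hq : D ⊆ Hn w)
    (hσ : ∀ z ∈ D, g w (σ z) = g w z) : ∀ z ∈ D, g N (σ z) = g N z := by
  intro z hz
  have h1 := transfer h hDo hDc hσd hN hDN hinj hne hcom w 0 hp (by simpa using hq) (by simpa using hσ) z hz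
  rwa [add_zero] at h1

/-- NO IDENTIFICATIONS: if moreover `F` is injective on `D ∪ σ D`, `D` has two points, then `σ = id` on `D`. -/
theorem no_ident {g : ℕ → ℂ → ℂ} {Hn : ℕ → Set ℂ} (h : Itr g Hn) {D : Set ℂ} (hDo : IsOpen D) (hDc : IsPreconnected D)
    {σ : ℂ → ℂ} (hσd : DifferentiableOn ℂ σ D) {N : ℕ} (hN : 1 ≤ N) (hDN : D ⊆ Hn N) (hinj : InjOn (g N) (D ∪ σ '' D)) (hne : ∃ z ∈ D, g N z ∈ D)
    (hcom : ∀ z ∈ D, g N z ∈ D → σ (g N z) = g N (σ z)) (w : ℕ) (hp : MapsTo σ D (Hn w)) (hq : D ⊆ Hn w)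
    (hσ : ∀ z ∈ D, g w (σ z) = g w z) : ∀ z ∈ D, σ z = z := by
  intro z hz
  obtain ⟨r, hr, hb⟩ := Metric.isOpen_iff.1 hDo z hz
  have h2 : z + (r / 2 : ℝ) ∈ D := by
    apply hb
    rw [mem_ball_iff_norm, add_sub_cancel_left, Complex.norm_real, Real.norm_eq_abs, abs_of_pos (by linarith)]
    linarith
  have h3 : z ≠ z + (r / 2 : ℝ) := by
    intro h4
    have h5 : ((r / 2 : ℝ) : ℂ) = 0 := by linear_combination -h4
    have h6 : r / 2 = 0 := by exact_mod_cast h5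
    linarith
  have h1 := no_ident_img h hDo hDc hσd hN hDN ⟨z, hz, _, h2, fun h4 => h3 (hinj (Or.inl hz) (Or.inl h2) h4)⟩ hne hcom w hp hq hσ z hz
  exact hinj (Or.inr (mem_image_of_mem _ hz)) (Or.inl hz) h1

end NI

end
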