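import Pool.Agent.helper81.NI.NI
import Pool.Agent.helper38.V3.KO0

/-!
# ni: after a small return there are no two sheets (finite stage version of: every nonconstant limit is injective)
-/

set_option autoImplicit false

open Metric Set Filter Topology

noncomputable section

namespace NI

/-- the inverse of an injective holomorphic function is holomorphic (copy of `PO.RMT_inv`). -/
theorem inv_holo (U : Set ℂ) (hop : IsOpen U) (F : ℂ → ℂ) (hd : DifferentiableOn ℂ F U)
    (hi : InjOn F U) : DifferentiableOn ℂ (Function.invFunOn F U) (F '' U) := by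
  have hne : ∀ x ∈ U, deriv F x ≠ 0 := by
    intro x hx
    obtain ⟨r, hr, hb⟩ := Metric.isOpen_iff.1 hop x hx
    exact V3.KO0_deriv hr (hd.mono hb) (hi.mono hb)
  have hg : ∀ x ∈ U, Function.invFunOn F U (F x) = x := fun x hx =>
    hi (Function.invFunOn_apply_mem (f := F) hx) hx (Function.invFunOn_apply_eq (f := F) hx)
  have hstr : ∀ x ∈ U, HasStrictDerivAt F (deriv F x) x := fun x hx =>
    (hd.analyticAt (hop.mem_nhds hx)).hasStrictDerivAt
  have hmap : ∀ x ∈ U, Filter.map F (𝓝 x) = 𝓝 (F x) := fun x hx =>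
    (hstr x hx).map_nhds_eq (hne x hx)
  rintro z ⟨x, hx, rfl⟩
  set g := Function.invFunOn F U with hgdef
  have hgx : g (F x) = x := hg x hx
  have hcont : ContinuousAt g (F x) := by
    have e1 : Tendsto (g ∘ F) (𝓝 x) (𝓝 x) := by
      refine Tendsto.congr' ?_ tendsto_id
      have e2 : ∀ᶠ y in 𝓝 x, y ∈ U := hop.mem_nhds hx
      filter_upwards [e2] with y hy
      exact (hg y hy).symm
    have e4 : Tendsto g (Filter.map F (𝓝 x)) (𝓝 x) := by
      rw [tendsto_map'_iff]
      exact e1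
    rw [hmap x hx] at e4
    unfold ContinuousAt
    rw [hgx]
    exact e4
  have hst' : HasDerivAt F (deriv F x) (g (F x)) := by
    rw [hgx]; exact (hstr x hx).hasDerivAt
  refine (HasDerivAt.of_local_left_inverse hcont hst' (hne x hx) ?_).differentiableAt.differentiableWithinAt
  have e5 : ∀ᶠ y in Filter.map F (𝓝 x), F (g y) = y := by
    rw [Filter.eventually_map]
    filter_upwards [hop.mem_nhds hx] with y hy
    rw [hg y hy]
  rw [hmap x hx] at e5
  exact e5

/-- NO TWO SHEETS: a return `F = f^N` which moves the points of two far apart discs `ball a ρ`, `ball b (ρ'/2)` by at most `e`: then `f^w` can not map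
`ball a ρ` into `f^w (ball b (ρ'/2))` if `f^w` is injective on `ball b ρ'`. -/
theorem no_two_sheets {g : ℕ → ℂ → ℂ} {Hn : ℕ → Set ℂ} (h : Itr g Hn) {a b : ℂ} {ρ ρ' e : ℝ} (hρ : 0 < ρ)
    (hdis : ρ + ρ' + 2 * e ≤ ‖b - a‖) {N w : ℕ} (hN : 1 ≤ N) (hNa : ball a ρ ⊆ Hn N) (he : e < ρ / 4) (he' : e ≤ ρ' / 2)
    (hFa : ∀ z ∈ ball a ρ, ‖g N z - z‖ ≤ e) (hFb : ∀ z ∈ ball b (ρ' / 2), ‖g N z - z‖ ≤ e) (hwa : ball a ρ ⊆ Hn w) (hwb : ball b ρ' ⊆ Hn w)
    (hinj : InjOn (g w) (ball b ρ')) (himg : MapsTo (g w) (ball a ρ) (g w '' ball b (ρ' / 2))) : False := by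
  have he0 : 0 ≤ e := (norm_nonneg _).trans (hFa a (mem_ball_self hρ))
  have hρ' : 0 ≤ ρ' := by linarith
  have hsub : ball b (ρ' / 2) ⊆ ball b ρ' := ball_subset_ball (by linarith)
  set E := ball b (ρ' / 2) with hE
  set τ := Function.invFunOn (g w) E with hτ
  have hinjE : InjOn (g w) E := hinj.mono hsub
  have hτd : DifferentiableOn ℂ τ (g w '' E) := inv_holo E isOpen_ball (g w) ((h.dif w).mono (hsub.trans hwb)) hinjE
  set σ : ℂ → ℂ := fun z => τ (g w z) with hσ
  have hσd : DifferentiableOn ℂ σ (ball a ρ) := hτd.comp ((h.dif w).mono hwa) himg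
  have hσm : ∀ z ∈ ball a ρ, σ z ∈ E := fun z hz => Function.invFunOn_mem (himg hz)
  have hσe : ∀ z ∈ ball a ρ, g w (σ z) = g w z := fun z hz => Function.invFunOn_eq (himg hz)
  have hcom : ∀ z ∈ ball a ρ, g N z ∈ ball a ρ → σ (g N z) = g N (σ z) := by
    intro z hz hFz
    have e := comm_img (u := w) (m := 0) h (D := ball a ρ) (σ := σ) (N := N) (by simpa using hσe) hz hFz
    refine hinj (hsub (hσm _ hFz)) ?_ e
    have h1 := hFb _ (hσm z hz)
    have h2 : ‖σ z - b‖ < ρ' / 2 := by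
      have := hσm z hz
      rwa [hE, mem_ball_iff_norm] at this
    rw [mem_ball_iff_norm]
    have h3 : g N (σ z) - b = (g N (σ z) - σ z) + (σ z - b) := by ring
    rw [h3]
    refine (norm_add_le _ _).trans_lt ?_
    linarith
  have ha : a ∈ ball a ρ := mem_ball_self hρ
  have hFa' : g N a ∈ ball a ρ := by
    rw [mem_ball_iff_norm]
    exact (hFa a ha).trans_lt (by linarith)
  -- two points with different images
  have h2 : a + (ρ / 2 : ℝ) ∈ ball a ρ := by
    rw [mem_ball_iff_norm, add_sub_cancel_left, Complex.norm_real, Real.norm_eq_abs, abs_of_pos (by linarith)]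
    linarith
  have h3 : g N a ≠ g N (a + (ρ / 2 : ℝ)) := by
    intro h4
    have h5 := hFa a ha
    have h6 := hFa _ h2
    rw [← h4] at h6
    have h7 : ‖((ρ / 2 : ℝ) : ℂ)‖ ≤ 2 * e := by
      have h8 : ((ρ / 2 : ℝ) : ℂ) = (g N a - a) - (g N a - (a + (ρ / 2 : ℝ))) := by ring
      rw [h8]
      refine (norm_sub_le _ _).trans ?_
      linarith
    rw [Complex.norm_real, Real.norm_eq_abs, abs_of_pos (by linarith)] at h7
    linarith
  have h4 := no_ident_img h isOpen_ball (convex_ball a ρ).isPreconnected hσd hN hNa ⟨a, ha, _, h2, h3⟩ ⟨a, ha, hFa'⟩ hcom w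
    (fun z hz => hwb (hsub (hσm z hz))) hwa hσe a ha
  have h5 := hFa a ha
  have h6 := hFb _ (hσm a ha)
  rw [h4] at h6
  have h7 : ‖σ a - b‖ < ρ' / 2 := by
    have := hσm a ha
    rwa [hE, mem_ball_iff_norm] at this
  have h8 : b - a = (g N a - a) - (g N a - σ a) - (σ a - b) := by ring
  have h9 : ‖b - a‖ ≤ e + e + ρ' / 2 := by
    rw [h8]
    refine (norm_sub_le _ _).trans ?_
    have := norm_sub_le (g N a - a) (g N a - σ a)
    linarith
  linarith

end NI

end
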