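import Pool.Agent.helper16.CVL.SpecD
import Pool.Agent.helper81.NI.Two

/-!
# ni:NIJ. AFTER AN INFINITESIMAL RETURN EVERY NONCONSTANT LIMIT IS INJECTIVE (frames of helper16, planar levels)

Base points `x j` (in the applications `x j = f^(T j) (typical point)`), `F_j = f^(N j)` converges to the identity in the frame, `G` is the limit of `f^(w j)` on the same frame, `w j ≤ H j`, `N j ≤ H j`. No flatness, no innerness.
-/

set_option autoImplicit false

open Complex Metric Set Filter Topology MeasureTheory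
open HY (UD T S hd UN RM)
open RT (Dyn it Hon PB VC Lv UC TD rm lf cr pd bl gr hdf Lf IB)
open RB (VL LO FLS FL CLS FR TL TLL INN)
open CVL

noncomputable section

namespace NI

/-- the returns `f^(N j)` converge to the identity on the frame `χ` of `V_(H j)(x j)`. -/
def IRT (Y : Dyn) (x : ℕ → ℂ) (U : Ultrafilter ℕ) (H N : ℕ → ℕ) (χ : ℂ → ℂ) : Prop :=
  (∀ᶠ j in (U : Filter ℕ), 1 ≤ N j ∧ N j ≤ H j) ∧
  TendstoLocallyUniformlyOn (fun j ζ => CO (VL Y (H j) (x j)) (x j) (it Y (N j) (PT (VL Y (H j) (x j)) (x j) ζ))) (fun ζ => ζ) U (χ '' UD)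

/-- NIJ: limits after an infinitesimal return are injective. -/
def NIJ_stmt : Prop := ∀ (Y : Dyn) (s : ℝ), RA.Sys Y s → ∀ x : ℕ → ℂ, (∀ j, x j ∈ Y.J) → ∀ (U : Ultrafilter ℕ) (H w N : ℕ → ℕ) (χ χ' G : ℂ → ℂ), FR Y s x U H χ → TL Y s x U H χ w χ' G →
  IRT Y x U H N χ → (∃ z ∈ χ '' UD, deriv G z ≠ 0) → InjOn G (χ '' UD)

/-- two different points with the same image, the second one not critical. -/
theorem two_points {G : ℂ → ℂ} {Ω : Set ℂ} (hΩ : IsOpen Ω) (hΩc : IsPreconnected Ω) (hG : DifferentiableOn ℂ G Ω) (hnc : ∃ z ∈ Ω, deriv G z ≠ 0)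
    (hni : ¬ InjOn G Ω) : ∃ a ∈ Ω, ∃ b ∈ Ω, a ≠ b ∧ G a = G b ∧ deriv G b ≠ 0 := by
  have han : AnalyticOnNhd ℂ G Ω := hG.analyticOnNhd hΩ
  -- `G` is nowhere locally constant
  have hnlc : ∀ z ∈ Ω, ¬ ∀ᶠ y in 𝓝 z, G y = G z := by
    intro z hz hc
    obtain ⟨z₁, hz₁, hd⟩ := hnc
    have h1 : EqOn G (fun _ => G z) Ω := han.eqOn_of_preconnected_of_eventuallyEq analyticOnNhd_const hΩc hz hc
    apply hd
    have h2 : G =ᶠ[𝓝 z₁] fun _ => G z := by
      filter_upwards [hΩ.mem_nhds hz₁] with y hy using h1 hy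
    rw [h2.deriv_eq, deriv_const]
  -- the derivative is not zero near `z`, except at `z`
  have hder : ∀ z ∈ Ω, ∀ᶠ y in 𝓝[≠] z, deriv G y ≠ 0 := by
    intro z hz
    rcases (han z hz).deriv.eventually_eq_zero_or_eventually_ne_zero with h0 | h0
    · exfalso
      apply hnlc z hz
      obtain ⟨r, hr, hb⟩ := Metric.eventually_nhds_iff_ball.1 (h0.and (hΩ.mem_nhds hz))
      filter_upwards [ball_mem_nhds z hr] with y hy
      have hd : DifferentiableOn ℂ G (ball z r) := fun v hv => (hG.differentiableAt (hΩ.mem_nhds (hb v hv).2)).differentiableWithinAt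
      exact (convex_ball z r).is_const_of_fderivWithin_eq_zero hd (by
        intro v hv
        rw [fderivWithin_of_isOpen isOpen_ball hv]
        have h3 : deriv G v = 0 := (hb v hv).1
        ext
        simpa using h3) hy (mem_ball_self hr)
    · exact h0
  simp only [InjOn, not_forall] at hni
  obtain ⟨a, ha, b, hb, hab, hne⟩ := hni
  by_cases hdb : deriv G b ≠ 0
  · exact ⟨a, ha, b, hb, hne, hab, hdb⟩
  -- `b` is critical
  obtain ⟨r, hr, hbr⟩ : ∃ r > 0, ∀ y ∈ ball b r, y ∈ Ω ∧ (y ≠ b → deriv G y ≠ 0) ∧ y ≠ a ∧ r ≤ dist a b / 2 := by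
    have h0 : ∀ᶠ y in 𝓝 b, y ∈ Ω := hΩ.mem_nhds hb
    have h1 : ∀ᶠ y in 𝓝 b, y ∈ Ω ∧ (y ≠ b → deriv G y ≠ 0) := h0.and (eventually_nhdsWithin_iff.1 (hder b hb))
    obtain ⟨r₁, hr₁, hb₁⟩ := Metric.eventually_nhds_iff_ball.1 h1
    have hd : 0 < dist a b := dist_pos.2 hne
    refine ⟨min r₁ (dist a b / 2), by positivity, fun y hy => ?_⟩
    have h2 := hb₁ y (ball_subset_ball (min_le_left _ _) hy)
    refine ⟨h2.1, h2.2, ?_, min_le_right _ _⟩
    rintro rfl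
    have h3 := mem_ball.1 (ball_subset_ball (min_le_right _ _) hy)
    linarith
  have hrd : r ≤ dist a b / 2 := (hbr b (mem_ball_self hr)).2.2.2
  have himg : G '' ball b r ∈ 𝓝 (G b) := by
    rcases (han b hb).eventually_constant_or_nhds_le_map_nhds with hc | hm
    · exact absurd hc (hnlc b hb)
    · exact hm (image_mem_map (ball_mem_nhds b hr))
  have hca : ContinuousAt G a := (hG.differentiableAt (hΩ.mem_nhds ha)).continuousAt
  have h1 : ∀ᶠ y in 𝓝 a, G y ∈ G '' ball b r := by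
    rw [← hab] at himg
    exact hca.eventually himg
  have h2a : ∀ᶠ y in 𝓝 a, y ∈ ball a r := ball_mem_nhds a hr
  have h2b : ∀ᶠ y in 𝓝 a, y ∈ Ω := hΩ.mem_nhds ha
  have h2 : ∀ᶠ y in 𝓝 a, y ∈ ball a r ∧ y ∈ Ω := h2a.and h2b
  have h3 : ∃ᶠ y in 𝓝 a, G y ≠ G a := by
    intro h4
    apply hnlc a ha
    filter_upwards [h4] with y hy
    exact not_not.1 hy
  obtain ⟨a', ha'1, ha'2, ha'3⟩ := (h3.and_eventually (h1.and h2)).exists
  obtain ⟨b', hb', hb'e⟩ := ha'2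
  refine ⟨a', ha'3.2, b', (hbr b' hb').1, ?_, hb'e.symm, (hbr b' hb').2.1 ?_⟩
  · rintro rfl
    have h5 := mem_ball.1 ha'3.1
    have h6 := mem_ball.1 hb'
    have h7 := dist_triangle a a' b
    rw [dist_comm a a'] at h7
    linarith
  · rintro rfl
    exact ha'1 (by rw [← hb'e, hab])

theorem itr_of_sys (hVIT : RS.VIT_stmt) {Y : Dyn} {s : ℝ} (hY : RA.Sys Y s) : Itr (it Y) (fun i => {z | Hon Y i z}) := by
  obtain ⟨h1, h2, h3, -, -, -⟩ := hVIT Y s 0 0 hY.ok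
  exact ⟨h1, fun i j z => h2 i j z, fun i => (h3 i).1, fun i => (h3 i).2⟩

theorem PT_mem_ball {W : Set ℂ} {x a ζ : ℂ} {ρ : ℝ} (hc : 0 < cr W x) : PT W x ζ ∈ ball (PT W x a) (cr W x * ρ) ↔ ζ ∈ ball a ρ := by
  unfold PT
  rw [mem_ball_iff_norm, mem_ball_iff_norm]
  have e : x + (cr W x : ℂ) * ζ - (x + (cr W x : ℂ) * a) = (cr W x : ℂ) * (ζ - a) := by ring
  rw [e, norm_mul, Complex.norm_real, Real.norm_eq_abs, abs_of_pos hc]
  exact mul_lt_mul_iff_right₀ hc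

theorem NIJ (hVIT : RS.VIT_stmt) (hLEV : CVD.LEV_stmt) (hFRB : CVL.FRB_stmt) (hNRM : CVL.NRM_stmt) (hCPK : CVL.CPK_stmt) (hMPF : CVL.MPF_stmt)
    (hLIV : PL.LIV_stmt) : NIJ_stmt := by
  intro Y s hY x hx U H w N χ χ' G hFR hTL hIR hnc
  obtain ⟨hN, hF⟩ := hIR
  obtain ⟨-, -, -, -, -, -, hΩo, hΩc, -, -⟩ := hFRB s U _ x χ hFR.fr
  set Ω := χ '' UD with hΩ
  obtain ⟨hGd, -, -, -, -⟩ := hMPF s U _ _ x _ χ χ' _ G hTL.tl
  by_contra hni
  obtain ⟨a, ha, b, hb, hab, hGab, hdb⟩ := two_points hΩo hΩc hGd hnc hni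
  have hd0 : 0 < ‖b - a‖ := norm_pos_iff.2 (sub_ne_zero.2 (Ne.symm hab))
  -- a radius
  obtain ⟨r₀, hr₀, hra, hrb, hrd⟩ : ∃ r₀ > 0, closedBall a r₀ ⊆ Ω ∧ closedBall b r₀ ⊆ Ω ∧ 4 * r₀ ≤ ‖b - a‖ := by
    obtain ⟨r₁, hr₁, h1⟩ := Metric.nhds_basis_closedBall.mem_iff.1 (hΩo.mem_nhds ha)
    obtain ⟨r₂, hr₂, h2⟩ := Metric.nhds_basis_closedBall.mem_iff.1 (hΩo.mem_nhds hb)
    refine ⟨min (min r₁ r₂) (‖b - a‖ / 4), by positivity, (closedBall_subset_closedBall ((min_le_left _ _).trans (min_le_left _ _))).trans h1,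
      (closedBall_subset_closedBall ((min_le_left _ _).trans (min_le_right _ _))).trans h2, ?_⟩
    have := min_le_right (min r₁ r₂) (‖b - a‖ / 4)
    linarith
  set V : ℕ → Set ℂ := fun j => VL Y (H j) (x j) with hV
  set V' : ℕ → Set ℂ := fun j => VL Y (H j - w j) (it Y (w j) (x j)) with hV'
  set x' : ℕ → ℂ := fun j => it Y (w j) (x j) with hx'
  set Gj : ℕ → ℂ → ℂ := fun j => GN (V j) (V' j) (x j) (x' j) (it Y (w j)) with hGj
  have hcv : TendstoLocallyUniformlyOn Gj G U Ω := hTL.tl.cv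
  have hpos : ∀ᶠ j in (U : Filter ℕ), 0 < cr (V j) (x j) := by
    filter_upwards [hFR.fr.td] with j hj
    exact (hNRM s _ _ hj.1 hj.2).1
  have hpos' : ∀ᶠ j in (U : Filter ℕ), 0 < cr (V' j) (x' j) := by
    filter_upwards [hTL.tl.fr'.td] with j hj
    exact (hNRM s _ _ hj.1 hj.2).1
  have hKa := hCPK s U V x χ hFR.fr (closedBall a r₀) hra (isCompact_closedBall a r₀)
  have hKb := hCPK s U V x χ hFR.fr (closedBall b r₀) hrb (isCompact_closedBall b r₀)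
  have hGdj : ∀ᶠ j in (U : Filter ℕ), DifferentiableOn ℂ (Gj j) (ball b r₀) := by
    filter_upwards [hTL.tl.map, hKb, hpos] with j hj hk hp
    have h1 : DifferentiableOn ℂ (fun ζ => it Y (w j) (PT (V j) (x j) ζ)) (ball b r₀) := by
      refine hj.1.comp ?_ fun ζ hζ => hk (ball_subset_closedBall hζ)
      unfold PT; fun_prop
    show DifferentiableOn ℂ (fun ζ => CO (V' j) (x' j) (it Y (w j) (PT (V j) (x j) ζ))) (ball b r₀)
    unfold CO
    exact (h1.sub_const _).div_const _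
  obtain ⟨ρ', ε, I, I₀, hρ', hρ'r, hε, hIj, -, hI₀d, hI₀m, hI₀b, -, hIcv⟩ := hLIV U Gj G b r₀ hr₀ hGdj
    (hcv.mono (ball_subset_closedBall.trans hrb)) hdb
  -- the small ball about `G b`
  have hI₀c : ContinuousAt I₀ (G b) := (hI₀d.differentiableAt (ball_mem_nhds _ hε)).continuousAt
  obtain ⟨ε₁, hε₁, hε₁ε, hI₀s⟩ : ∃ ε₁ > 0, ε₁ < ε ∧ ∀ y ∈ closedBall (G b) ε₁, I₀ y ∈ ball b (ρ' / 4) := by
    have h1 : I₀ ⁻¹' ball b (ρ' / 4) ∈ 𝓝 (G b) := hI₀c.preimage_mem_nhds (by rw [hI₀b]; exact ball_mem_nhds _ (by linarith))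
    obtain ⟨ε₂, hε₂, h2⟩ := Metric.nhds_basis_closedBall.mem_iff.1 h1
    refine ⟨min ε₂ (ε / 2), by positivity, (min_le_right _ _).trans_lt (by linarith), fun y hy => h2 (closedBall_subset_closedBall (min_le_left _ _) hy)⟩
  have hIs : ∀ᶠ j in (U : Filter ℕ), ∀ y ∈ closedBall (G b) ε₁, ‖I₀ y - I j y‖ < ρ' / 4 := by
    have h1 := (tendstoLocallyUniformlyOn_iff_tendstoUniformlyOn_of_compact (isCompact_closedBall (G b) ε₁)).1
      (hIcv.mono (closedBall_subset_ball hε₁ε))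
    have h2 := Metric.tendstoUniformlyOn_iff.1 h1 (ρ' / 4) (by linarith)
    filter_upwards [h2] with j hj y hy
    have := hj y hy
    rwa [dist_eq_norm] at this
  -- the small ball about `a`
  have hGc : ContinuousAt G a := (hGd.differentiableAt (hΩo.mem_nhds ha)).continuousAt
  obtain ⟨ρ, hρ, hρr, hGa⟩ : ∃ ρ > 0, ρ ≤ r₀ ∧ ∀ y ∈ closedBall a ρ, G y ∈ ball (G b) (ε₁ / 2) := by
    have h1 : G ⁻¹' ball (G b) (ε₁ / 2) ∈ 𝓝 a := hGc.preimage_mem_nhds (by rw [hGab]; exact ball_mem_nhds _ (by linarith))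
    obtain ⟨ρ₂, hρ₂, h2⟩ := Metric.nhds_basis_closedBall.mem_iff.1 h1
    refine ⟨min ρ₂ r₀, by positivity, min_le_right _ _, fun y hy => h2 (closedBall_subset_closedBall (min_le_left _ _) hy)⟩
  have hGs : ∀ᶠ j in (U : Filter ℕ), ∀ y ∈ closedBall a ρ, ‖G y - Gj j y‖ < ε₁ / 2 := by
    have h1 := (tendstoLocallyUniformlyOn_iff_tendstoUniformlyOn_of_compact (isCompact_closedBall a ρ)).1
      (hcv.mono ((closedBall_subset_closedBall hρr).trans hra))
    have h2 := Metric.tendstoUniformlyOn_iff.1 h1 (ε₁ / 2) (by linarith)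
    filter_upwards [h2] with j hj y hy
    have := hj y hy
    rwa [dist_eq_norm] at this
  -- the returns
  set e : ℝ := min ρ ρ' / 8 with he
  have he0 : 0 < e := by rw [he]; positivity
  have heρ : e ≤ ρ / 8 := by rw [he]; have := min_le_left ρ ρ'; linarith
  have heρ' : e ≤ ρ' / 8 := by rw [he]; have := min_le_right ρ ρ'; linarith
  have hFs : ∀ K ⊆ Ω, IsCompact K → ∀ᶠ j in (U : Filter ℕ), ∀ y ∈ K, ‖y - CO (V j) (x j) (it Y (N j) (PT (V j) (x j) y))‖ < e := by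
    intro K hK hKc
    have h1 := (tendstoLocallyUniformlyOn_iff_tendstoUniformlyOn_of_compact hKc).1 (hF.mono hK)
    have h2 := Metric.tendstoUniformlyOn_iff.1 h1 e he0
    filter_upwards [h2] with j hj y hy
    have := hj y hy
    rwa [dist_eq_norm] at this
  have hFa := hFs (closedBall a r₀) hra (isCompact_closedBall a r₀)
  have hFb := hFs (closedBall b r₀) hrb (isCompact_closedBall b r₀)
  have hall := hN.and (hTL.le.and (hpos.and (hpos'.and (hKa.and (hKb.and (hIj.and (hIs.and (hGs.and (hFa.and hFb)))))))))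
  obtain ⟨j, ⟨hN1, hNH⟩, hwH, hcr, hcr', hka, hkb, ⟨hinjb, -, hImap, hIinv⟩, hIs, hGs, hFa, hFb⟩ := hall.exists
  -- points of the balls are in `V j`
  obtain ⟨-, -, -, hlev⟩ := hLEV Y s hY
  obtain ⟨-, -, -, -, -, -, hlev'⟩ := hlev (x j) (hx j) (H j)
  have hHonw : ∀ ζ, PT (V j) (x j) ζ ∈ V j → Hon Y (w j) (PT (V j) (x j) ζ) := fun ζ hζ => (hlev' (w j) hwH).2.2.1 _ hζ
  have hHonN : ∀ ζ, PT (V j) (x j) ζ ∈ V j → Hon Y (N j) (PT (V j) (x j) ζ) := fun ζ hζ => (hlev' (N j) hNH).2.2.1 _ hζ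
  have hPTCO : ∀ z, PT (V j) (x j) (CO (V j) (x j) z) = z := by
    intro z; unfold PT CO
    have : (cr (V j) (x j) : ℂ) ≠ 0 := by exact_mod_cast hcr.ne'
    field_simp; ring
  have hCOPT : ∀ z, CO (V j) (x j) (PT (V j) (x j) z) = z := by
    intro z; unfold PT CO
    have : (cr (V j) (x j) : ℂ) ≠ 0 := by exact_mod_cast hcr.ne'
    field_simp; ring
  have hCOi : ∀ z z', CO (V' j) (x' j) z = CO (V' j) (x' j) z' → z = z' := by
    intro z z' h; unfold CO at h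
    have : (cr (V' j) (x' j) : ℂ) ≠ 0 := by exact_mod_cast hcr'.ne'
    rw [div_left_inj' this] at h
    exact sub_left_inj.1 h
  have hball : ∀ c ρ₁ z, z ∈ ball (PT (V j) (x j) c) (cr (V j) (x j) * ρ₁) → ∃ ζ ∈ ball c ρ₁, z = PT (V j) (x j) ζ := by
    intro c ρ₁ z hz
    refine ⟨CO (V j) (x j) z, ?_, (hPTCO z).symm⟩
    rw [← PT_mem_ball hcr, hPTCO]; exact hz
  have hdisp : ∀ ζ, ‖ζ - CO (V j) (x j) (it Y (N j) (PT (V j) (x j) ζ))‖ < e → ‖it Y (N j) (PT (V j) (x j) ζ) - PT (V j) (x j) ζ‖ ≤ cr (V j) (x j) * e := by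
    intro ζ hζ
    have h1 : it Y (N j) (PT (V j) (x j) ζ) - PT (V j) (x j) ζ = -((cr (V j) (x j) : ℂ) * (ζ - CO (V j) (x j) (it Y (N j) (PT (V j) (x j) ζ)))) := by
      conv_lhs => rw [← hPTCO (it Y (N j) (PT (V j) (x j) ζ))]
      unfold PT; ring
    rw [h1, norm_neg, norm_mul, Complex.norm_real, Real.norm_eq_abs, abs_of_pos hcr]
    exact mul_le_mul_of_nonneg_left hζ.le hcr.le
  have hsub1 : ball b ρ' ⊆ closedBall b r₀ := (ball_subset_ball hρ'r).trans ball_subset_closedBall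
  have hsub2 : ball a ρ ⊆ closedBall a r₀ := (ball_subset_ball hρr).trans ball_subset_closedBall
  refine no_two_sheets (itr_of_sys hVIT hY) (a := PT (V j) (x j) a) (b := PT (V j) (x j) b) (ρ := cr (V j) (x j) * ρ) (ρ' := cr (V j) (x j) * ρ')
    (e := cr (V j) (x j) * e) (N := N j) (w := w j) (by positivity) ?_ hN1 ?_ ?_ ?_ ?_ ?_ ?_ ?_ ?_ ?_
  · have h1 : PT (V j) (x j) b - PT (V j) (x j) a = (cr (V j) (x j) : ℂ) * (b - a) := by unfold PT; ring
    rw [h1, norm_mul, Complex.norm_real, Real.norm_eq_abs, abs_of_pos hcr]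
    have h2 : cr (V j) (x j) * ρ + cr (V j) (x j) * ρ' + 2 * (cr (V j) (x j) * e) = cr (V j) (x j) * (ρ + ρ' + 2 * e) := by ring
    rw [h2]
    refine mul_le_mul_of_nonneg_left ?_ hcr.le
    linarith
  · intro z hz
    obtain ⟨ζ, hζ, rfl⟩ := hball _ _ _ hz
    exact hHonN ζ (hka (hsub2 hζ))
  · have : cr (V j) (x j) * e ≤ cr (V j) (x j) * (ρ / 8) := mul_le_mul_of_nonneg_left heρ hcr.le
    have h2 : 0 < cr (V j) (x j) * ρ := by positivity
    linarith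
  · have : cr (V j) (x j) * e ≤ cr (V j) (x j) * (ρ' / 8) := mul_le_mul_of_nonneg_left heρ' hcr.le
    have h2 : 0 < cr (V j) (x j) * ρ' := by positivity
    linarith
  · intro z hz
    obtain ⟨ζ, hζ, rfl⟩ := hball _ _ _ hz
    exact hdisp ζ (hFa ζ (hsub2 hζ))
  · intro z hz
    rw [mul_div_assoc] at hz
    obtain ⟨ζ, hζ, rfl⟩ := hball _ _ _ hz
    exact hdisp ζ (hFb ζ (hsub1 (ball_subset_ball (by linarith) hζ)))
  · intro z hz
    obtain ⟨ζ, hζ, rfl⟩ := hball _ _ _ hz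
    exact hHonw ζ (hka (hsub2 hζ))
  · intro z hz
    obtain ⟨ζ, hζ, rfl⟩ := hball _ _ _ hz
    exact hHonw ζ (hkb (hsub1 hζ))
  · intro z hz z' hz' h
    obtain ⟨ζ, hζ, rfl⟩ := hball _ _ _ hz
    obtain ⟨ζ', hζ', rfl⟩ := hball _ _ _ hz'
    have h1 : Gj j ζ = Gj j ζ' := by
      show CO (V' j) (x' j) (it Y (w j) (PT (V j) (x j) ζ)) = CO (V' j) (x' j) (it Y (w j) (PT (V j) (x j) ζ'))
      rw [h]
    rw [hinjb hζ hζ' h1]
  · intro z hz
    obtain ⟨ζ, hζ, rfl⟩ := hball _ _ _ hz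
    have h1 : Gj j ζ ∈ ball (G b) ε₁ := by
      have h2 := hGs ζ (ball_subset_closedBall hζ)
      have h3 := hGa ζ (ball_subset_closedBall hζ)
      rw [mem_ball_iff_norm] at h3 ⊢
      have h4 : Gj j ζ - G b = (G ζ - G b) - (G ζ - Gj j ζ) := by ring
      rw [h4]
      refine (norm_sub_le _ _).trans_lt ?_
      linarith
    have h5 := hI₀s _ (ball_subset_closedBall h1)
    have h6 := hIs _ (ball_subset_closedBall h1)
    have h7 : I j (Gj j ζ) ∈ ball b (ρ' / 2) := by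
      rw [mem_ball_iff_norm] at h5 ⊢
      have h8 : I j (Gj j ζ) - b = (I₀ (Gj j ζ) - b) - (I₀ (Gj j ζ) - I j (Gj j ζ)) := by ring
      rw [h8]
      refine (norm_sub_le _ _).trans_lt ?_
      linarith
    have h9 := hIinv _ (ball_subset_ball hε₁ε.le h1)
    refine ⟨PT (V j) (x j) (I j (Gj j ζ)), ?_, ?_⟩
    · rw [mul_div_assoc, PT_mem_ball hcr]; exact h7
    · exact hCOi _ _ h9

end NI

end
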